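import Mathlib

set_option autoImplicit false

namespace Pool.Agent.Results.MP_10f644_co.LowerBound56

open Finset

/-- `F` is a family of cliques of `G`, each with at least two vertices. -/
def IsCliqueFamily {V : Type} (G : SimpleGraph V) (F : Finset (Finset V)) : Prop :=
  ∀ s ∈ F, 2 ≤ s.card ∧ G.IsClique (s : Set V)

/-- Every edge of `G` lies in some member of `F`. -/
def CoversEdges {V : Type} (G : SimpleGraph V) (F : Finset (Finset V)) : Prop :=
  ∀ u v, G.Adj u v → ∃ s, s ∈ F ∧ u ∈ s ∧ v ∈ s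

/-- Every edge of `G` lies in exactly one member of `F`. -/
def PartitionsEdges {V : Type} (G : SimpleGraph V) (F : Finset (Finset V)) : Prop :=
  ∀ u v, G.Adj u v → ∃! s, s ∈ F ∧ u ∈ s ∧ v ∈ s

/-- The edge clique cover number. -/
noncomputable def cc {V : Type} (G : SimpleGraph V) : ℕ :=
  sInf {k | ∃ F : Finset (Finset V), IsCliqueFamily G F ∧ CoversEdges G F ∧ F.card = k}

/-- The clique partition number. -/
noncomputable def cp {V : Type} (G : SimpleGraph V) : ℕ :=
  sInf {k | ∃ F : Finset (Finset V), IsCliqueFamily G F ∧ PartitionsEdges G F ∧ F.card = k}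

section general
variable {V : Type} [Fintype V] [DecidableEq V]

/-- The edges themselves form a clique partition, so `cp` is the minimum over a nonempty set. -/
lemma exists_partition (G : SimpleGraph V) :
    ∃ F : Finset (Finset V), IsCliqueFamily G F ∧ PartitionsEdges G F := by
  classical
  refine ⟨(Finset.univ : Finset (Finset V)).filter (fun s => s.card = 2 ∧ G.IsClique (s : Set V)), ?_, ?_⟩
  · intro s hs
    rw [Finset.mem_filter] at hs
    exact ⟨hs.2.1.ge, hs.2.2⟩
  · intro u v huv
    refine ⟨{u, v}, ⟨?_, by simp, by simp⟩, ?_⟩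
    · rw [Finset.mem_filter]
      refine ⟨Finset.mem_univ _, Finset.card_pair huv.ne, ?_⟩
      intro a ha b hb hab
      simp only [Finset.coe_insert, Finset.coe_singleton, Set.mem_insert_iff, Set.mem_singleton_iff] at ha hb
      rcases ha with rfl | rfl <;> rcases hb with rfl | rfl
      · exact absurd rfl hab
      · exact huv
      · exact huv.symm
      · exact absurd rfl hab
    · rintro s ⟨hs, hu, hv⟩
      rw [Finset.mem_filter] at hs
      symm
      apply Finset.eq_of_subset_of_card_le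
      · intro x hx
        rw [Finset.mem_insert, Finset.mem_singleton] at hx
        rcases hx with rfl | rfl <;> assumption
      · rw [Finset.card_pair huv.ne, hs.2.1]

lemma cp_spec (G : SimpleGraph V) :
    ∃ F : Finset (Finset V), IsCliqueFamily G F ∧ PartitionsEdges G F ∧ F.card = cp G := by
  obtain ⟨F, h1, h2⟩ := exists_partition G
  exact Nat.sInf_mem (s := {k | ∃ F : Finset (Finset V), IsCliqueFamily G F ∧ PartitionsEdges G F ∧ F.card = k})
    ⟨F.card, F, h1, h2, rfl⟩

lemma cc_spec (G : SimpleGraph V) :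
    ∃ F : Finset (Finset V), IsCliqueFamily G F ∧ CoversEdges G F ∧ F.card = cc G := by
  obtain ⟨F, h1, h2⟩ := exists_partition G
  exact Nat.sInf_mem (s := {k | ∃ F : Finset (Finset V), IsCliqueFamily G F ∧ CoversEdges G F ∧ F.card = k})
    ⟨F.card, F, h1, fun u v huv => (h2 u v huv).exists, rfl⟩

/-- Weight counting. -/
lemma weight_sum (G : SimpleGraph V) [DecidableRel G.Adj] (F : Finset (Finset V)) (hF : IsCliqueFamily G F)
    (hP : PartitionsEdges G F) (W : V → V → ℤ) :
    ∑ u, ∑ v, (if G.Adj u v then W u v else 0) =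
      ∑ Q ∈ F, ∑ u ∈ Q, ∑ v ∈ Q, (if u = v then 0 else W u v) := by
  have h1 : ∀ Q ∈ F, ∑ u ∈ Q, ∑ v ∈ Q, (if u = v then 0 else W u v) =
      ∑ u, ∑ v, (if u ∈ Q then (if v ∈ Q then (if u = v then 0 else W u v) else 0) else 0) := by
    intro Q _
    have h2 : ∀ u, ∑ v, (if u ∈ Q then (if v ∈ Q then (if u = v then 0 else W u v) else 0) else 0) =
        if u ∈ Q then ∑ v ∈ Q, (if u = v then 0 else W u v) else 0 := by
      intro u
      by_cases hu : u ∈ Q
      · simp only [hu, if_true]
        rw [Finset.sum_ite_mem, Finset.univ_inter]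
      · simp only [hu, if_false, Finset.sum_const_zero]
    simp_rw [h2]
    rw [Finset.sum_ite_mem, Finset.univ_inter]
  rw [Finset.sum_congr rfl h1]
  have hsw : ∑ Q ∈ F, ∑ u, ∑ v, (if u ∈ Q then (if v ∈ Q then (if u = v then 0 else W u v) else 0) else 0) =
      ∑ u, ∑ v, ∑ Q ∈ F, (if u ∈ Q then (if v ∈ Q then (if u = v then 0 else W u v) else 0) else 0) := by
    rw [Finset.sum_comm (s := F) (t := (Finset.univ : Finset V))]
    exact Finset.sum_congr rfl fun u _ => Finset.sum_comm
  rw [hsw]
  refine Finset.sum_congr rfl fun u _ => ?_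
  refine Finset.sum_congr rfl fun v _ => ?_
  by_cases huv : u = v
  · subst huv
    simp
  · by_cases hadj : G.Adj u v
    · obtain ⟨Q, ⟨hQF, huQ, hvQ⟩, huniq⟩ := hP u v hadj
      rw [if_pos hadj, Finset.sum_eq_single Q]
      · simp [huQ, hvQ, huv]
      · intro Q' hQ' hne
        by_cases h3 : u ∈ Q' <;> by_cases h4 : v ∈ Q'
        · exact absurd (huniq Q' ⟨hQ', h3, h4⟩) hne
        · simp [h4]
        · simp [h3]
        · simp [h3]
      · intro h; exact absurd hQF h
    · rw [if_neg hadj]
      symm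
      refine Finset.sum_eq_zero fun Q hQ => ?_
      by_cases h3 : u ∈ Q <;> by_cases h4 : v ∈ Q
      · exact absurd ((hF Q hQ).2 (Finset.mem_coe.mpr h3) (Finset.mem_coe.mpr h4) huv) hadj
      · simp [h4]
      · simp [h3]
      · simp [h3]

end general

/-- The graph: vertex classes `{i} × Fin m` for `i < 7`. Classes `0, 1, 2` form a clique joined to
everything, and each of the classes `3, 4, 5, 6` is a clique. -/
def base (m : ℕ) : SimpleGraph (Fin 7 × Fin m) where
  Adj p p' := p ≠ p' ∧ (p.1 < 3 ∨ p'.1 < 3 ∨ p.1 = p'.1)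
  symm := ⟨fun p p' h => ⟨h.1.symm, by rcases h.2 with h | h | h <;> simp [h]⟩⟩
  loopless := ⟨fun p h => h.1 rfl⟩

/-- The same graph on `Fin (7 * m)`. -/
def Gr (m : ℕ) : SimpleGraph (Fin (7 * m)) := (base m).comap (finProdFinEquiv (m := 7) (n := m)).symm

def isX {m : ℕ} (p : Fin 7 × Fin m) : Prop := p.1 < 3

instance {m : ℕ} (p : Fin 7 × Fin m) : Decidable (isX p) := inferInstanceAs (Decidable (p.1 < 3))

/-- The edge weights. -/
def wt {m : ℕ} (p p' : Fin 7 × Fin m) : ℤ :=
  if isX p then (if isX p' then -1 else 1) else (if isX p' then 1 else -2)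

lemma quad_le (x y : ℕ) : 2 * (x : ℤ) * y - (x * x - x) - 2 * (y * y - y) ≤ 2 := by
  have h1 : ∀ t : ℤ, 0 ≤ t * (t - 1) := by
    intro t
    rcases le_or_gt t 0 with h | h
    · nlinarith
    · have : 1 ≤ t := h
      nlinarith
  have h2 := h1 ((x : ℤ) - y)
  have h3 := h1 ((y : ℤ) - 1)
  nlinarith

lemma clique_weight {V : Type} [DecidableEq V] (Q : Finset V) (P : V → Prop) [DecidablePred P] :
    ∑ u ∈ Q, ∑ v ∈ Q, (if u = v then 0 else (if P u then (if P v then (-1 : ℤ) else 1) else (if P v then 1 else -2))) ≤ 2 := by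
  have h1 : ∀ u ∈ Q, ∑ v ∈ Q, (if u = v then 0 else (if P u then (if P v then (-1 : ℤ) else 1) else (if P v then 1 else -2))) =
      if P u then ((Q.filter (fun v => ¬ P v)).card : ℤ) - (Q.filter P).card + 1
      else ((Q.filter P).card : ℤ) - 2 * (Q.filter (fun v => ¬ P v)).card + 2 := by
    intro u hu
    have h2 : ∀ v ∈ Q, (if u = v then 0 else (if P u then (if P v then (-1 : ℤ) else 1) else (if P v then 1 else -2))) =
        (if P u then (if P v then (-1 : ℤ) else 1) else (if P v then 1 else -2)) + (if u = v then (if P u then 1 else 2) else 0) := by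
      intro v _
      by_cases huv : u = v
      · subst huv
        by_cases hp : P u <;> simp [hp]
      · simp [huv]
    rw [Finset.sum_congr rfl h2, Finset.sum_add_distrib]
    have h3 : ∑ v ∈ Q, (if u = v then (if P u then (1 : ℤ) else 2) else 0) = if P u then 1 else 2 := by
      rw [Finset.sum_ite_eq]; simp [hu]
    rw [h3]
    by_cases hp : P u
    · simp only [hp, if_true]
      rw [Finset.sum_ite]
      simp only [Finset.sum_const, smul_neg, nsmul_eq_mul, mul_one]
      ring
    · simp only [hp, if_false]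
      rw [Finset.sum_ite]
      simp only [Finset.sum_const, smul_neg, nsmul_eq_mul, mul_one]
      ring
  rw [Finset.sum_congr rfl h1, Finset.sum_ite]
  simp only [Finset.sum_const, nsmul_eq_mul]
  have := quad_le (Q.filter P).card (Q.filter (fun v => ¬ P v)).card
  nlinarith

def kk (i j : Fin 7) : ℤ :=
  if (i < 3 ∨ j < 3 ∨ i = j) then (if i < 3 then (if j < 3 then (-1 : ℤ) else 1) else (if j < 3 then 1 else -2)) else 0

def gg (i : Fin 7) : ℤ := if i < 3 then 1 else 2

/-- The total weight of the graph. -/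
lemma total_weight (m : ℕ) :
    ∑ p : Fin 7 × Fin m, ∑ p' : Fin 7 × Fin m,
      (if p ≠ p' ∧ (p.1 < 3 ∨ p'.1 < 3 ∨ p.1 = p'.1) then wt p p' else 0) = 7 * (m : ℤ) ^ 2 + 11 * m := by
  have h1 : ∀ p p' : Fin 7 × Fin m, (if p ≠ p' ∧ (p.1 < 3 ∨ p'.1 < 3 ∨ p.1 = p'.1) then wt p p' else 0) =
      kk p.1 p'.1 + (if p = p' then gg p.1 else 0) := by
    intro p p'
    unfold kk gg
    by_cases hpp : p = p'
    · subst hpp
      by_cases hx : p.1 < 3 <;> simp [hx]
    · simp only [hpp, ne_eq, not_false_eq_true, true_and, if_false, add_zero]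
      rfl
  simp_rw [h1, Finset.sum_add_distrib]
  have h2 : ∑ p : Fin 7 × Fin m, ∑ p' : Fin 7 × Fin m, (if p = p' then gg p.1 else 0) = 11 * m := by
    simp only [Finset.sum_ite_eq, Finset.mem_univ, if_true]
    rw [Fintype.sum_prod_type]
    simp only [Finset.sum_const, Finset.card_univ, Fintype.card_fin, nsmul_eq_mul]
    rw [← Finset.mul_sum]
    have : ∑ i : Fin 7, gg i = 11 := by decide
    rw [this]; ring
  have h3 : ∑ p : Fin 7 × Fin m, ∑ p' : Fin 7 × Fin m, kk p.1 p'.1 = 7 * (m : ℤ) ^ 2 := by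
    simp_rw [Fintype.sum_prod_type]
    simp only [Finset.sum_const, Finset.card_univ, Fintype.card_fin, nsmul_eq_mul]
    have h4 : ∀ i : Fin 7, ∑ j : Fin 7, (m : ℤ) * kk i j = (m : ℤ) := by
      intro i
      rw [← Finset.mul_sum]
      have : ∑ j : Fin 7, kk i j = 1 := by
        revert i
        decide
      rw [this, mul_one]
    simp_rw [h4]
    simp only [Finset.sum_const, Finset.card_univ, Fintype.card_fin, nsmul_eq_mul]
    push_cast; ring
  rw [h2, h3]

lemma cp_lower (m : ℕ) : 7 * (m : ℤ) ^ 2 + 11 * m ≤ 2 * (cp (Gr m) : ℤ) := by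
  classical
  obtain ⟨F, hF, hP, hc⟩ := cp_spec (Gr m)
  have h1 := weight_sum (Gr m) F hF hP
    (fun u v => wt ((finProdFinEquiv (m := 7) (n := m)).symm u) ((finProdFinEquiv (m := 7) (n := m)).symm v))
  have h2 : ∑ u, ∑ v, (if (Gr m).Adj u v then wt ((finProdFinEquiv (m := 7) (n := m)).symm u)
      ((finProdFinEquiv (m := 7) (n := m)).symm v) else 0) = 7 * (m : ℤ) ^ 2 + 11 * m := by
    rw [← total_weight m, ← Equiv.sum_comp (finProdFinEquiv (m := 7) (n := m)).symm]
    refine Finset.sum_congr rfl fun u _ => ?_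
    rw [← Equiv.sum_comp (finProdFinEquiv (m := 7) (n := m)).symm]
    refine Finset.sum_congr rfl fun v _ => ?_
    by_cases h : (Gr m).Adj u v
    · rw [if_pos h, if_pos]
      exact h
    · rw [if_neg h, if_neg]
      exact h
  have h3 : ∑ Q ∈ F, ∑ u ∈ Q, ∑ v ∈ Q, (if u = v then 0 else
      wt ((finProdFinEquiv (m := 7) (n := m)).symm u) ((finProdFinEquiv (m := 7) (n := m)).symm v)) ≤ ∑ Q ∈ F, (2 : ℤ) := by
    refine Finset.sum_le_sum fun Q _ => ?_
    exact clique_weight Q (fun u => isX ((finProdFinEquiv (m := 7) (n := m)).symm u))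
  rw [Finset.sum_const, nsmul_eq_mul, hc] at h3
  linarith

lemma cc_upper (m : ℕ) (hm : 0 < m) : cc (Gr m) ≤ 4 := by
  classical
  let Q : Fin 4 → Finset (Fin (7 * m)) := fun i =>
    Finset.univ.filter (fun u => ((finProdFinEquiv (m := 7) (n := m)).symm u).1 < 3 ∨
      ((finProdFinEquiv (m := 7) (n := m)).symm u).1.val = i.val + 3)
  have hcl : IsCliqueFamily (Gr m) (Finset.univ.image Q) := by
    intro s hs
    rw [Finset.mem_image] at hs
    obtain ⟨i, _, rfl⟩ := hs
    constructor
    · have h2 : ({finProdFinEquiv ((0 : Fin 7), (⟨0, hm⟩ : Fin m)), finProdFinEquiv ((1 : Fin 7), (⟨0, hm⟩ : Fin m))} : Finset (Fin (7 * m))) ⊆ Q i := by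
        intro x hx
        rw [Finset.mem_insert, Finset.mem_singleton] at hx
        simp only [Q, Finset.mem_filter, Finset.mem_univ, true_and]
        rcases hx with rfl | rfl
        · left; rw [Equiv.symm_apply_apply]; show (0 : Fin 7) < 3; decide
        · left; rw [Equiv.symm_apply_apply]; show (1 : Fin 7) < 3; decide
      have h3 := Finset.card_le_card h2
      rw [Finset.card_pair] at h3
      · omega
      · intro h
        have := (finProdFinEquiv (m := 7) (n := m)).injective h
        simp at this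
    · intro u hu v hv huv
      simp only [Q, Finset.coe_filter, Finset.mem_univ, true_and] at hu hv
      refine ⟨fun h => huv ((finProdFinEquiv (m := 7) (n := m)).symm.injective h), ?_⟩
      rcases hu with h | h
      · left; exact h
      · rcases hv with h' | h'
        · right; left; exact h'
        · right; right
          exact Fin.ext (h.trans h'.symm)
  have hcov : CoversEdges (Gr m) (Finset.univ.image Q) := by
    intro u v huv
    have h := huv.2
    have hlt : ∀ w : Fin (7 * m), ((finProdFinEquiv (m := 7) (n := m)).symm w).1 < 3 ∨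
        ∃ i : Fin 4, ((finProdFinEquiv (m := 7) (n := m)).symm w).1.val = i.val + 3 := by
      intro w
      rcases lt_or_ge ((finProdFinEquiv (m := 7) (n := m)).symm w).1.val 3 with h | h
      · left; exact h
      · right
        have := ((finProdFinEquiv (m := 7) (n := m)).symm w).1.2
        exact ⟨⟨((finProdFinEquiv (m := 7) (n := m)).symm w).1.val - 3, by omega⟩, by simp only; omega⟩
    have hmem : ∀ i w, (((finProdFinEquiv (m := 7) (n := m)).symm w).1 < 3 ∨
      ((finProdFinEquiv (m := 7) (n := m)).symm w).1.val = i.val + 3) → w ∈ Q i := by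
      intro i w hw
      simp only [Q, Finset.mem_filter, Finset.mem_univ, true_and]
      exact hw
    rcases hlt u with hu | ⟨i, hi⟩
    · rcases hlt v with hv | ⟨j, hj⟩
      · exact ⟨Q 0, Finset.mem_image_of_mem _ (Finset.mem_univ _), hmem 0 u (Or.inl hu), hmem 0 v (Or.inl hv)⟩
      · exact ⟨Q j, Finset.mem_image_of_mem _ (Finset.mem_univ _), hmem j u (Or.inl hu), hmem j v (Or.inr hj)⟩
    · rcases hlt v with hv | ⟨j, hj⟩
      · exact ⟨Q i, Finset.mem_image_of_mem _ (Finset.mem_univ _), hmem i u (Or.inr hi), hmem i v (Or.inl hv)⟩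
      · have h' : ((finProdFinEquiv (m := 7) (n := m)).symm u).1 = ((finProdFinEquiv (m := 7) (n := m)).symm v).1 := by
          rcases h with h | h | h
          · have : ((finProdFinEquiv (m := 7) (n := m)).symm u).1.val < 3 := h
            omega
          · have : ((finProdFinEquiv (m := 7) (n := m)).symm v).1.val < 3 := h
            omega
          · exact h
        refine ⟨Q i, Finset.mem_image_of_mem _ (Finset.mem_univ _), hmem i u (Or.inr hi), hmem i v (Or.inr ?_)⟩
        rw [← h']; exact hi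
  calc cc (Gr m) ≤ (Finset.univ.image Q).card := Nat.sInf_le ⟨_, hcl, hcov, rfl⟩
    _ ≤ (Finset.univ : Finset (Fin 4)).card := Finset.card_image_le
    _ = 4 := by simp

/-- For every `m ≥ 1` there is a graph on `n = 7 m` vertices, with at least one edge, with
`cp / cc > n² / 56`. -/
theorem result : ∀ m : ℕ, 0 < m → ∃ G : SimpleGraph (Fin (7 * m)), G ≠ ⊥ ∧
    ((cp G : ℝ) / (cc G : ℝ)) > (1 / 56 : ℝ) * ((7 * m : ℕ) : ℝ) ^ 2 := by
  intro m hm
  have hcp := cp_lower m
  have hcc := cc_upper m hm
  have hmR : (0 : ℝ) < m := by exact_mod_cast hm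
  have hcpR : 7 * (m : ℝ) ^ 2 + 11 * m ≤ 2 * (cp (Gr m) : ℝ) := by exact_mod_cast hcp
  have hadj : (Gr m).Adj (finProdFinEquiv ((0 : Fin 7), (⟨0, hm⟩ : Fin m))) (finProdFinEquiv ((1 : Fin 7), (⟨0, hm⟩ : Fin m))) := by
    show (base m).Adj _ _
    rw [Equiv.symm_apply_apply, Equiv.symm_apply_apply]
    exact ⟨by simp, Or.inl (by show (0 : Fin 7) < 3; decide)⟩
  have hne : Gr m ≠ ⊥ := by
    intro h
    rw [h] at hadj
    exact hadj
  have hcc0 : 0 < cc (Gr m) := by
    obtain ⟨F, _, hcov, hc⟩ := cc_spec (Gr m)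
    obtain ⟨s, hs, _⟩ := hcov _ _ hadj
    rw [← hc, Finset.card_pos]
    exact ⟨s, hs⟩
  refine ⟨Gr m, hne, ?_⟩
  have hccR : (cc (Gr m) : ℝ) ≤ 4 := by exact_mod_cast hcc
  have hcc0R : (0 : ℝ) < cc (Gr m) := by exact_mod_cast hcc0
  rw [gt_iff_lt, lt_div_iff₀ hcc0R]
  push_cast
  nlinarith [mul_nonneg (sq_nonneg (m : ℝ)) (by linarith : (0 : ℝ) ≤ 4 - cc (Gr m))]

end Pool.Agent.Results.MP_10f644_co.LowerBound56
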